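import Mathlib
import Pool.Agent.Helper28.TF.Count

/-!
# A prime is a Wilson prime of at most two of `K` consecutive orders, with few exceptions

For a prime `p` and `1 ≤ n ≤ p` put `W p n = (-1) ^ n (n - 1)! (p - n)!`; it is congruent to `1`
modulo `p`, and `p` is a Wilson prime of order `n` if it is congruent to `1` modulo `p ^ 2`
(`n = 1`: a Wilson prime).

We show that for all shifts `k, l ≥ 1` there are at most `k l` pairs `(p, n)`, `p ≥ k + l`, with
`W p n ≡ W p (n + k) ≡ W p (n + k + l)` modulo `p ^ 2`, and this is uniform in `n`. So for every `K`, all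
primes `p ≥ K` but at most `K ^ 4 / 4` have the property that no three of any `K` consecutive values
`W p n` are equal modulo `p ^ 2`; in particular such a prime is a Wilson prime of at most two of any
`K` consecutive orders. Two equal values do occur for every prime: `W p n = W p (p + 1 - n)`.

Proof. `W p n ≡ W p (n + k)` means that `n - 1` is a zero modulo `p` of the derivative of
`(X + 1) ⋯ (X + k)`. The resultant of the derivatives of `(X + 1) ⋯ (X + k)` and
`(X + k + 1) ⋯ (X + k + l)` is a nonzero integer, since their real zeros lie in disjoint intervals; it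
is at most `(k + l) ^ (k l)`, and it is divisible by the product over the primes `p` of
`p ^ (number of the common zeros modulo p)`.
-/

open Finset

namespace Pool.Agent.Results.MP_de5eaa_nt.ThreeEqualOrders

/-- `p` is a Wilson prime of order `n`: `p` is prime, `1 ≤ n ≤ p` and
`(n - 1)! (p - n)! ≡ (-1) ^ n` modulo `p ^ 2`. -/
def IsWilson (p n : ℕ) : Prop :=
  p.Prime ∧ 1 ≤ n ∧ n ≤ p ∧
    (p : ℤ) ^ 2 ∣ ((n - 1).factorial : ℤ) * ((p - n).factorial : ℤ) - (-1) ^ n

/-- `(-1) ^ n (n - 1)! (p - n)!` -/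
def W (p n : ℕ) : ℤ := (-1) ^ n * ((n - 1).factorial : ℤ) * ((p - n).factorial : ℤ)

/-- The pairs `(p, n)`, `p ≥ k + l` prime and `1 ≤ n ≤ p - k - l`, such that the three numbers
`W p n`, `W p (n + k)` and `W p (n + k + l)` are congruent modulo `p ^ 2`. -/
def pattern (k l : ℕ) : Set (ℕ × ℕ) :=
  {q | q.1.Prime ∧ k + l ≤ q.1 ∧ 1 ≤ q.2 ∧ q.2 + k + l ≤ q.1 ∧
    W q.1 q.2 ≡ W q.1 (q.2 + k) [ZMOD (q.1 : ℤ) ^ 2] ∧
    W q.1 (q.2 + k) ≡ W q.1 (q.2 + k + l) [ZMOD (q.1 : ℤ) ^ 2]}

/-- The primes `p ≥ K` for which some `K` consecutive orders contain three orders `a < b < c` with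
`W p a ≡ W p b ≡ W p c` modulo `p ^ 2`. -/
def exceptional (K : ℕ) : Set ℕ :=
  {p | p.Prime ∧ K ≤ p ∧ ∃ a b c : ℕ, 1 ≤ a ∧ a < b ∧ b < c ∧ c < a + K ∧ c ≤ p ∧
    W p a ≡ W p b [ZMOD (p : ℤ) ^ 2] ∧ W p b ≡ W p c [ZMOD (p : ℤ) ^ 2]}

open Pool.Agent.Helper28

lemma mem_Z_of_pattern {k l p n : ℕ} (hl : 1 ≤ l) (h : (p, n) ∈ pattern k l) :
    n - 1 ∈ TF.Z p k l := by
  obtain ⟨h1, -, h3, h4, h5, h6⟩ := h
  apply TF.mem_Z_of_equal p n k l (W p n) h1 h3 hl h4
  · have : TF.W p n - W p n = 0 := sub_self _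
    rw [this]
    exact dvd_zero _
  · exact h5.dvd
  · exact (h5.trans h6).dvd

/-- every finite set of such pairs has at most `k l` elements -/
lemma card_le_of_subset (k l : ℕ) (hk : 1 ≤ k) (hl : 1 ≤ l) (A : Finset (ℕ × ℕ))
    (hA : ∀ q ∈ A, q ∈ pattern k l) : A.card ≤ k * l := by
  classical
  set S := A.image Prod.fst with hS
  have h1 := TF.sum_card_Z S k l hk hl (by
    intro p hp
    obtain ⟨q, hq, rfl⟩ := Finset.mem_image.mp hp
    exact ⟨(hA q hq).1, (hA q hq).2.1⟩)
  refine le_trans ?_ h1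
  rw [Finset.card_eq_sum_card_image Prod.fst A]
  apply Finset.sum_le_sum
  intro p _
  apply Finset.card_le_card_of_injOn (fun q => q.2 - 1)
  · intro q hq
    have hq' := Finset.mem_filter.mp hq
    obtain ⟨a, b⟩ := q
    obtain rfl : a = p := hq'.2
    exact mem_Z_of_pattern hl (hA _ hq'.1)
  · intro q hq r hr hqr
    have hq' := Finset.mem_filter.mp hq
    have hr' := Finset.mem_filter.mp hr
    have hq1 := (hA _ hq'.1).2.2.1
    have hr1 := (hA _ hr'.1).2.2.1
    have h2 : q.2 - 1 = r.2 - 1 := hqr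
    apply Prod.ext
    · rw [hq'.2, hr'.2]
    · omega

/-- a set all of whose finite subsets have at most `m` elements -/
lemma finite_of_bound {α : Type*} (s : Set α) (m : ℕ)
    (h : ∀ A : Finset α, (∀ q ∈ A, q ∈ s) → A.card ≤ m) : s.Finite ∧ s.ncard ≤ m := by
  have hf : s.Finite := by
    by_contra hinf
    obtain ⟨A, hA1, hA2⟩ := Set.Infinite.exists_subset_card_eq hinf (m + 1)
    have := h A (fun q hq => hA1 hq)
    omega
  refine ⟨hf, ?_⟩
  rw [Set.ncard_eq_toFinset_card s hf]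
  exact h _ (fun q hq => hf.mem_toFinset.mp hq)

lemma exceptional_bound (K : ℕ) (A : Finset ℕ) (hA : ∀ p ∈ A, p ∈ exceptional K) :
    4 * A.card ≤ K ^ 4 := by
  classical
  -- every exceptional prime has a common zero for some `k, l ≥ 1`, `k + l < K`
  have h1 : ∀ p ∈ A, 1 ≤ ∑ k ∈ Finset.Ico 1 K, ∑ l ∈ Finset.Ico 1 K,
      (if k + l < K then (TF.Z p k l).card else 0) := by
    intro p hp
    obtain ⟨hpp, hKp, a, b, c, ha, hab, hbc, hcK, hcp, h1, h2⟩ := hA p hp
    have hmem : (p, a) ∈ pattern (b - a) (c - b) := by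
      refine ⟨hpp, ?_, ha, ?_, ?_, ?_⟩
      · show b - a + (c - b) ≤ p
        omega
      · show a + (b - a) + (c - b) ≤ p
        omega
      · show W p a ≡ W p (a + (b - a)) [ZMOD (p : ℤ) ^ 2]
        rw [Nat.add_sub_cancel' hab.le]
        exact h1
      · show W p (a + (b - a)) ≡ W p (a + (b - a) + (c - b)) [ZMOD (p : ℤ) ^ 2]
        rw [Nat.add_sub_cancel' hab.le, Nat.add_sub_cancel' hbc.le]
        exact h2
    have hz := mem_Z_of_pattern (by omega) hmem
    have hz1 : 1 ≤ (TF.Z p (b - a) (c - b)).card := Finset.card_pos.mpr ⟨_, hz⟩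
    calc 1 ≤ (if (b - a) + (c - b) < K then (TF.Z p (b - a) (c - b)).card else 0) := by
          rw [if_pos (by omega)]
          exact hz1
      _ ≤ ∑ l ∈ Finset.Ico 1 K, (if (b - a) + l < K then (TF.Z p (b - a) l).card else 0) :=
          Finset.single_le_sum
            (f := fun l => if (b - a) + l < K then (TF.Z p (b - a) l).card else 0)
            (fun _ _ => Nat.zero_le _) (Finset.mem_Ico.mpr ⟨by omega, by omega⟩)
      _ ≤ _ :=
          Finset.single_le_sum
            (f := fun k => ∑ l ∈ Finset.Ico 1 K, (if k + l < K then (TF.Z p k l).card else 0))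
            (fun _ _ => Nat.zero_le _) (Finset.mem_Ico.mpr ⟨by omega, by omega⟩)
  have h2 : A.card ≤ (∑ k ∈ Finset.Ico 1 K, k) ^ 2 := by
    calc A.card = ∑ _p ∈ A, 1 := by simp
      _ ≤ ∑ p ∈ A, ∑ k ∈ Finset.Ico 1 K, ∑ l ∈ Finset.Ico 1 K,
          (if k + l < K then (TF.Z p k l).card else 0) := Finset.sum_le_sum h1
      _ = ∑ k ∈ Finset.Ico 1 K, ∑ l ∈ Finset.Ico 1 K, ∑ p ∈ A,
          (if k + l < K then (TF.Z p k l).card else 0) := by
          rw [Finset.sum_comm]
          apply Finset.sum_congr rfl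
          intro k _
          rw [Finset.sum_comm]
      _ ≤ ∑ k ∈ Finset.Ico 1 K, ∑ l ∈ Finset.Ico 1 K, k * l := by
          apply Finset.sum_le_sum
          intro k hk
          apply Finset.sum_le_sum
          intro l hl
          rw [Finset.mem_Ico] at hk hl
          split_ifs with hkl
          · apply TF.sum_card_Z A k l hk.1 hl.1
            intro p hp
            exact ⟨(hA p hp).1, by have := (hA p hp).2.1; omega⟩
          · simp
      _ = (∑ k ∈ Finset.Ico 1 K, k) ^ 2 := by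
          rw [sq, Finset.sum_mul_sum]
  have h3 : 2 * ∑ k ∈ Finset.Ico 1 K, k ≤ K ^ 2 := by
    rcases Nat.eq_zero_or_pos K with h0 | h0
    · subst h0
      simp
    · have h4 : ∑ k ∈ Finset.Ico 1 K, k = ∑ k ∈ range K, k := by
        rw [Finset.range_eq_Ico, ← Finset.sum_Ico_consecutive (fun k => k) (Nat.zero_le 1) h0]
        simp
      rw [h4, mul_comm, Finset.sum_range_id_mul_two, sq]
      exact Nat.mul_le_mul_left _ (Nat.sub_le _ _)
  calc 4 * A.card ≤ 4 * (∑ k ∈ Finset.Ico 1 K, k) ^ 2 := Nat.mul_le_mul_left _ h2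
    _ = (2 * ∑ k ∈ Finset.Ico 1 K, k) ^ 2 := by ring
    _ ≤ (K ^ 2) ^ 2 := Nat.pow_le_pow_left h3 2
    _ = K ^ 4 := by ring

lemma isWilson_iff (p n : ℕ) : IsWilson p n ↔
    p.Prime ∧ 1 ≤ n ∧ n ≤ p ∧ W p n ≡ 1 [ZMOD (p : ℤ) ^ 2] := by
  unfold IsWilson
  have h : ((p : ℤ) ^ 2 ∣ ((n - 1).factorial : ℤ) * ((p - n).factorial : ℤ) - (-1) ^ n) ↔
      W p n ≡ 1 [ZMOD (p : ℤ) ^ 2] := by
    rw [Int.modEq_comm, Int.modEq_iff_dvd]
    unfold W
    have h : (-1 : ℤ) ^ n * ((n - 1).factorial : ℤ) * ((p - n).factorial : ℤ) - 1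
        = (-1) ^ n * (((n - 1).factorial : ℤ) * ((p - n).factorial : ℤ) - (-1) ^ n) := by
      have h2 : (-1 : ℤ) ^ n * (-1) ^ n = 1 := by
        rw [← mul_pow]
        simp
      linear_combination h2
    rw [h]
    have hu : IsUnit ((-1 : ℤ) ^ n) := (IsUnit.neg isUnit_one).pow n
    rw [hu.dvd_mul_left]
  rw [h]

/-- **Three orders.**

(1) The Wilson primes of order one are the Wilson primes.

(2) For all `k, l ≥ 1` there are at most `k l` pairs `(p, n)`, `p ≥ k + l`, `1 ≤ n ≤ p - k - l`, with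
`W p n ≡ W p (n + k) ≡ W p (n + k + l)` modulo `p ^ 2`.

(3) For every `K` there are at most `K ^ 4 / 4` primes `p ≥ K` for which three of some `K` consecutive
values `W p n` are congruent modulo `p ^ 2`.

(4) So all primes `p ≥ K` with at most `K ^ 4 / 4` exceptions are Wilson primes of at most two of any
`K` consecutive orders `m, ..., m + K - 1`. -/
theorem result :
    (∀ p : ℕ, IsWilson p 1 ↔ p.Prime ∧ p ^ 2 ∣ (p - 1).factorial + 1) ∧
    (∀ k l : ℕ, 1 ≤ k → 1 ≤ l → (pattern k l).Finite ∧ (pattern k l).ncard ≤ k * l) ∧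
    (∀ K : ℕ, (exceptional K).Finite ∧ 4 * (exceptional K).ncard ≤ K ^ 4) ∧
    (∀ K p m : ℕ, p.Prime → K ≤ p → p ∉ exceptional K →
      {n | m ≤ n ∧ n < m + K ∧ IsWilson p n}.ncard ≤ 2) := by
  refine ⟨?_, ?_, ?_, ?_⟩
  · intro p
    unfold IsWilson
    have h : ((1 - 1 : ℕ).factorial : ℤ) * ((p - 1).factorial : ℤ) - (-1) ^ 1
        = (((p - 1).factorial + 1 : ℕ) : ℤ) := by
      push_cast
      simp
    rw [h]
    constructor
    · rintro ⟨h1, -, -, h2⟩
      exact ⟨h1, by exact_mod_cast h2⟩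
    · rintro ⟨h1, h2⟩
      exact ⟨h1, le_refl 1, h1.one_lt.le, by exact_mod_cast h2⟩
  · intro k l hk hl
    exact finite_of_bound _ _ (card_le_of_subset k l hk hl)
  · intro K
    obtain ⟨h1, h2⟩ := finite_of_bound (exceptional K) (K ^ 4 / 4) (by
      intro A hA
      have := exceptional_bound K A hA
      omega)
    exact ⟨h1, by omega⟩
  · intro K p m hp hK hex
    by_contra hcon
    have h3 : 2 < {n | m ≤ n ∧ n < m + K ∧ IsWilson p n}.ncard := by omega
    have hfin : {n | m ≤ n ∧ n < m + K ∧ IsWilson p n}.Finite :=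
      (Set.finite_Iio (m + K)).subset fun n hn => hn.2.1
    rw [Set.ncard_eq_toFinset_card _ hfin] at h3
    let e := Finset.orderEmbOfCardLe hfin.toFinset h3
    have he : ∀ i, (m ≤ e i ∧ e i < m + K ∧ IsWilson p (e i)) :=
      fun i => hfin.mem_toFinset.mp (Finset.orderEmbOfCardLe_mem _ h3 i)
    have hlt1 : e 0 < e 1 := e.strictMono (by decide)
    have hlt2 : e 1 < e 2 := e.strictMono (by decide)
    have w : ∀ i, W p (e i) ≡ 1 [ZMOD (p : ℤ) ^ 2] := fun i =>
      ((isWilson_iff _ _).mp (he i).2.2).2.2.2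
    apply hex
    have b0 := he 0
    have b2 := he 2
    refine ⟨hp, hK, e 0, e 1, e 2, b0.2.2.2.1, hlt1, hlt2, by omega, b2.2.2.2.2.1, ?_, ?_⟩
    · exact (w 0).trans (w 1).symm
    · exact (w 1).trans (w 2).symm

end Pool.Agent.Results.MP_de5eaa_nt.ThreeEqualOrders
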