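import Mathlib
import Pool.Agent.Helper28.TF.Main

/-!
# Wilson primes of different orders: the exponent `3 / 5` on average over the primes

For a prime `p` and `1 ≤ n ≤ p` put `W p n = (-1) ^ n (n - 1)! (p - n)!`; it is congruent to `1`
modulo `p`, and `p` is a Wilson prime of order `n` if it is congruent to `1` modulo `p ^ 2`
(`n = 1`: a Wilson prime).

For every single prime each value modulo `p ^ 2` is taken by `W p n` for at most `O (N ^ (2 / 3))`
of the `n` of an interval of length `N`, by counting the pairs of values: `W p n ≡ W p (n + k)` means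
that `n - 1` is a zero modulo `p` of the derivative of `(X + 1) ⋯ (X + k)`. The resulting averages
over the orders have the exponent `2 / 3`, too.

We show that on average over the primes the exponent is `3 / 5`. Three equal values
`W p n`, `W p (n + k)`, `W p (n + k + l)` give a common zero modulo `p` of the derivatives of
`(X + 1) ⋯ (X + k)` and `(X + k + 1) ⋯ (X + k + l)`. The resultant of these two polynomials is a nonzero
integer, since their real zeros lie in disjoint intervals, and it is at most `(k + l) ^ (k l)`, whereas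
it is divisible by the product of all `p ^ (number of the common zeros modulo p)`. So there are at most
`k l` common zeros for all primes `p ≥ k + l` together.
-/

open Finset

namespace Pool.Agent.Results.MP_de5eaa_nt.ThreeFifthsOnAverage

/-- `p` is a Wilson prime of order `n`: `p` is prime, `1 ≤ n ≤ p` and
`(n - 1)! (p - n)! ≡ (-1) ^ n` modulo `p ^ 2`. -/
def IsWilson (p n : ℕ) : Prop :=
  p.Prime ∧ 1 ≤ n ∧ n ≤ p ∧
    (p : ℤ) ^ 2 ∣ ((n - 1).factorial : ℤ) * ((p - n).factorial : ℤ) - (-1) ^ n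

/-- `(-1) ^ n (n - 1)! (p - n)!` -/
def W (p n : ℕ) : ℤ := (-1) ^ n * ((n - 1).factorial : ℤ) * ((p - n).factorial : ℤ)

/-- The number of the `n ≤ p` with `M < n ≤ M + N` and `W p n ≡ c` modulo `p ^ 2`. -/
def hits (p : ℕ) (c : ℤ) (M N : ℕ) : ℕ :=
  ((Finset.Ioc M (M + N)).filter (fun n => n ≤ p ∧ (p : ℤ) ^ 2 ∣ W p n - c)).card

open Classical in
/-- The number of the Wilson primes of order `n` in `(x, 2 x]`. -/
noncomputable def wilsonCount (n x : ℕ) : ℕ :=
  ((Finset.Ioc x (2 * x)).filter (fun p => IsWilson p n)).card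

open Classical in
/-- The number of the primes `p` in `(x, 2 x]` such that some value modulo `p ^ 2` is taken by `W p n`
for at least `t` of the `n` with `1 ≤ n ≤ p`. -/
noncomputable def exceptional (x : ℕ) (t : ℝ) : ℕ :=
  ((Finset.Ioc x (2 * x)).filter (fun p => p.Prime ∧ ∃ c : ℤ, t ≤ (hits p c 0 p : ℝ))).card

lemma hits_eq (p : ℕ) (c : ℤ) (M N : ℕ) :
    hits p c M N = (Pool.Agent.Helper28.TF.T p c M N).card := rfl

lemma isWilson_iff (p n : ℕ) : IsWilson p n ↔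
    p.Prime ∧ 1 ≤ n ∧ n ≤ p ∧ (p : ℤ) ^ 2 ∣ W p n - 1 := by
  unfold IsWilson W
  have h : (-1 : ℤ) ^ n * ((n - 1).factorial : ℤ) * ((p - n).factorial : ℤ) - 1
      = (-1) ^ n * (((n - 1).factorial : ℤ) * ((p - n).factorial : ℤ) - (-1) ^ n) := by
    have h2 : (-1 : ℤ) ^ n * (-1) ^ n = 1 := by
      rw [← mul_pow]
      simp
    linear_combination h2
  rw [h]
  have hu : IsUnit ((-1 : ℤ) ^ n) := (IsUnit.neg isUnit_one).pow n
  rw [hu.dvd_mul_left]

lemma hits_mono (p : ℕ) (c : ℤ) (N : ℕ) : hits p c 0 p ≤ hits p c 0 (p + N) := by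
  apply Finset.card_le_card
  intro n hn
  rw [Finset.mem_filter, Finset.mem_Ioc] at hn ⊢
  exact ⟨⟨hn.1.1, by omega⟩, hn.2⟩

/-- the main inequality -/
theorem main (S : Finset ℕ) (y N : ℕ) (c : ℕ → ℤ) (M : ℕ → ℕ)
    (hS : ∀ p ∈ S, p.Prime ∧ y ≤ p) (hy : 32 * (S.card * N) ≤ y ^ 5) :
    (∑ p ∈ S, (hits p (c p) (M p) N : ℝ)) ≤ 2 * S.card + 3 * ((S.card : ℝ) * N) ^ (4 / 5 : ℝ) :=
  Pool.Agent.Helper28.TF.main_inequality S y N c M hS hy

open Classical in
/-- exchange of the summations -/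
lemma sum_wilsonCount (x M N : ℕ) :
    ∑ n ∈ Finset.Ioc M (M + N), wilsonCount n x
      = ∑ p ∈ (Finset.Ioc x (2 * x)).filter Nat.Prime, hits p 1 M N := by
  unfold wilsonCount hits
  simp only [Finset.card_filter]
  rw [Finset.sum_comm, Finset.sum_filter]
  apply Finset.sum_congr rfl
  intro p _
  split_ifs with hp
  · apply Finset.sum_congr rfl
    intro n hn
    rw [Finset.mem_Ioc] at hn
    have h1 : IsWilson p n ↔ (n ≤ p ∧ (p : ℤ) ^ 2 ∣ W p n - 1) := by
      rw [isWilson_iff]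
      constructor
      · rintro ⟨-, -, h⟩
        exact h
      · intro h
        exact ⟨hp, by omega, h⟩
    simp only [h1]
  · apply Finset.sum_eq_zero
    intro n _
    rw [if_neg]
    rintro ⟨h, -⟩
    exact hp h

lemma card_primes_le (x : ℕ) : ((Finset.Ioc x (2 * x)).filter Nat.Prime).card ≤ x := by
  refine (Finset.card_filter_le _ _).trans ?_
  rw [Nat.card_Ioc]
  omega

lemma rpow_facts (x : ℕ) (hx : 1 ≤ x) :
    (x : ℝ) ≤ (x : ℝ) ^ (8 / 5 : ℝ) ∧
      ((x : ℝ) * x) ^ (4 / 5 : ℝ) = (x : ℝ) ^ (8 / 5 : ℝ) := by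
  have hx1 : (1 : ℝ) ≤ x := by exact_mod_cast hx
  constructor
  · calc (x : ℝ) = (x : ℝ) ^ (1 : ℝ) := (Real.rpow_one _).symm
      _ ≤ (x : ℝ) ^ (8 / 5 : ℝ) := Real.rpow_le_rpow_of_exponent_le hx1 (by norm_num)
  · rw [← pow_two, ← Real.rpow_natCast, ← Real.rpow_mul (by linarith)]
    norm_num

/-- the average over the orders -/
theorem average (x : ℕ) (hx : 1 ≤ x) :
    (∑ n ∈ Finset.Icc 1 x, (wilsonCount n x : ℝ)) ≤ 5 * (x : ℝ) ^ (8 / 5 : ℝ) := by
  have h0 : Finset.Icc 1 x = Finset.Ioc 0 (0 + x) := by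
    ext n
    simp only [Finset.mem_Icc, Finset.mem_Ioc]
    omega
  have h1 : (∑ n ∈ Finset.Icc 1 x, (wilsonCount n x : ℝ))
      = ∑ p ∈ (Finset.Ioc x (2 * x)).filter Nat.Prime, (hits p 1 0 x : ℝ) := by
    rw [h0]
    exact_mod_cast sum_wilsonCount x 0 x
  have hcard := card_primes_le x
  have h2 := main ((Finset.Ioc x (2 * x)).filter Nat.Prime) (x + 1) x (fun _ => 1) (fun _ => 0)
    (fun p hp => ⟨(Finset.mem_filter.mp hp).2, by
      have := Finset.mem_Ioc.mp (Finset.mem_filter.mp hp).1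
      omega⟩) (by
        have h3 : 32 * (((Finset.Ioc x (2 * x)).filter Nat.Prime).card * x) ≤ 32 * (x * x) :=
          Nat.mul_le_mul_left _ (Nat.mul_le_mul_right _ hcard)
        refine h3.trans ?_
        obtain ⟨z, rfl⟩ : ∃ z, x = z + 1 := ⟨x - 1, by omega⟩
        have : (z + 1 + 1) ^ 5 = 32 * ((z + 1) * (z + 1)) +
            (z ^ 5 + 10 * z ^ 4 + 40 * z ^ 3 + 48 * z ^ 2 + 16 * z) := by ring
        omega)
  rw [h1]
  refine h2.trans ?_
  obtain ⟨h4, h5⟩ := rpow_facts x hx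
  have hc : ((((Finset.Ioc x (2 * x)).filter Nat.Prime).card : ℕ) : ℝ) ≤ x := by
    exact_mod_cast hcard
  have h6 : (((((Finset.Ioc x (2 * x)).filter Nat.Prime).card : ℕ) : ℝ) * x) ^ (4 / 5 : ℝ)
      ≤ ((x : ℝ) * x) ^ (4 / 5 : ℝ) := by
    apply Real.rpow_le_rpow (by positivity) _ (by norm_num)
    exact mul_le_mul_of_nonneg_right hc (by positivity)
  rw [h5] at h6
  linarith

/-- almost all primes -/
theorem almost_all (x : ℕ) (hx : 3 ≤ x) (t : ℝ) :
    (exceptional x t : ℝ) * t ≤ 8 * (x : ℝ) ^ (8 / 5 : ℝ) := by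
  classical
  set S := (Finset.Ioc x (2 * x)).filter (fun p => p.Prime ∧ ∃ c : ℤ, t ≤ (hits p c 0 p : ℝ))
    with hS
  have hmem : ∀ p ∈ S, (x < p ∧ p ≤ 2 * x) ∧ p.Prime ∧ ∃ c : ℤ, t ≤ (hits p c 0 p : ℝ) := by
    intro p hp
    rw [hS, Finset.mem_filter, Finset.mem_Ioc] at hp
    exact hp
  have hch : ∃ c : ℕ → ℤ, ∀ p ∈ S, t ≤ (hits p (c p) 0 p : ℝ) := by
    refine ⟨fun p => if h : ∃ c : ℤ, t ≤ (hits p c 0 p : ℝ) then h.choose else 0, ?_⟩
    intro p hp
    have h := (hmem p hp).2.2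
    simp only [dif_pos h]
    exact h.choose_spec
  obtain ⟨c, hc⟩ := hch
  have hcard : S.card ≤ x := by
    refine (Finset.card_le_card (t := (Finset.Ioc x (2 * x)).filter Nat.Prime) ?_).trans
      (card_primes_le x)
    intro p hp
    rw [Finset.mem_filter, Finset.mem_Ioc]
    exact ⟨(hmem p hp).1, (hmem p hp).2.1⟩
  have h1 : (exceptional x t : ℝ) * t ≤ ∑ p ∈ S, (hits p (c p) 0 (2 * x) : ℝ) := by
    have h2 : ∑ _p ∈ S, t ≤ ∑ p ∈ S, (hits p (c p) 0 (2 * x) : ℝ) := by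
      apply Finset.sum_le_sum
      intro p hp
      refine (hc p hp).trans ?_
      have h3 := hits_mono p (c p) (2 * x - p)
      rw [Nat.add_sub_cancel' (hmem p hp).1.2] at h3
      exact_mod_cast h3
    rw [Finset.sum_const, nsmul_eq_mul] at h2
    have h4 : exceptional x t = S.card := rfl
    rw [h4]
    exact h2
  refine h1.trans ?_
  have h5 := main S (x + 1) (2 * x) c (fun _ => 0)
    (fun p hp => ⟨(hmem p hp).2.1, by have := (hmem p hp).1.1; omega⟩) (by
      have h3 : 32 * (S.card * (2 * x)) ≤ 32 * (x * (2 * x)) :=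
        Nat.mul_le_mul_left _ (Nat.mul_le_mul_right _ hcard)
      refine h3.trans ?_
      obtain ⟨z, rfl⟩ : ∃ z, x = z + 3 := ⟨x - 3, by omega⟩
      have : (z + 3 + 1) ^ 5 = 32 * ((z + 3) * (2 * (z + 3))) +
          (z ^ 5 + 20 * z ^ 4 + 160 * z ^ 3 + 576 * z ^ 2 + 896 * z + 448) := by ring
      omega)
  refine h5.trans ?_
  obtain ⟨h4, h6⟩ := rpow_facts x (by omega)
  have hcr : (S.card : ℝ) ≤ x := by exact_mod_cast hcard
  have h7 : ((S.card : ℝ) * ((2 * x : ℕ) : ℝ)) ^ (4 / 5 : ℝ)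
      ≤ 2 * (x : ℝ) ^ (8 / 5 : ℝ) := by
    calc ((S.card : ℝ) * ((2 * x : ℕ) : ℝ)) ^ (4 / 5 : ℝ)
        ≤ (2 * ((x : ℝ) * x)) ^ (4 / 5 : ℝ) := by
          apply Real.rpow_le_rpow (by positivity) _ (by norm_num)
          push_cast
          nlinarith [(by positivity : (0 : ℝ) ≤ x)]
      _ = 2 ^ (4 / 5 : ℝ) * (x : ℝ) ^ (8 / 5 : ℝ) := by
          rw [Real.mul_rpow (by norm_num) (by positivity), h6]
      _ ≤ 2 * (x : ℝ) ^ (8 / 5 : ℝ) := by
          apply mul_le_mul_of_nonneg_right _ (by positivity)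
          calc (2 : ℝ) ^ (4 / 5 : ℝ) ≤ 2 ^ (1 : ℝ) :=
                Real.rpow_le_rpow_of_exponent_le (by norm_num) (by norm_num)
            _ = 2 := Real.rpow_one 2
  linarith

/-- **Wilson primes of different orders, the exponent `3 / 5` on average.**

(1) The Wilson primes of order one are the Wilson primes.

(2) Let `S` be a finite set of primes `p ≥ y` with `32 |S| N ≤ y ^ 5`. For all targets `c p` and all
windows `(M p, M p + N]`, the numbers of the `n ≤ p` in the window with `W p n ≡ c p` modulo `p ^ 2`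
have, for `p ∈ S`, the sum at most `2 |S| + 3 (|S| N) ^ (4 / 5)`.

(3) For all `x ≥ 1` the number of the Wilson primes of order `n` in `(x, 2 x]` is, on average over the
orders `n ≤ x`, at most `5 x ^ (3 / 5)`.

(4) For all `x ≥ 3` and `t`, at most `8 x ^ (8 / 5) / t` primes `p` in `(x, 2 x]` are such that some
value modulo `p ^ 2` is taken by `W p n` for at least `t` of the `n` with `1 ≤ n ≤ p`. -/
theorem result :
    (∀ p : ℕ, IsWilson p 1 ↔ p.Prime ∧ p ^ 2 ∣ (p - 1).factorial + 1) ∧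
    (∀ (S : Finset ℕ) (y N : ℕ) (c : ℕ → ℤ) (M : ℕ → ℕ), (∀ p ∈ S, p.Prime ∧ y ≤ p) →
      32 * (S.card * N) ≤ y ^ 5 →
      (∑ p ∈ S, (hits p (c p) (M p) N : ℝ))
        ≤ 2 * S.card + 3 * ((S.card : ℝ) * N) ^ (4 / 5 : ℝ)) ∧
    (∀ x : ℕ, 1 ≤ x →
      (∑ n ∈ Finset.Icc 1 x, (wilsonCount n x : ℝ)) / x ≤ 5 * (x : ℝ) ^ (3 / 5 : ℝ)) ∧
    (∀ x : ℕ, 3 ≤ x → ∀ t : ℝ, (exceptional x t : ℝ) * t ≤ 8 * (x : ℝ) ^ (8 / 5 : ℝ)) := by
  refine ⟨?_, main, ?_, almost_all⟩
  · intro p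
    unfold IsWilson
    have h : ((1 - 1 : ℕ).factorial : ℤ) * ((p - 1).factorial : ℤ) - (-1) ^ 1
        = (((p - 1).factorial + 1 : ℕ) : ℤ) := by
      push_cast
      simp
    rw [h]
    constructor
    · rintro ⟨h1, -, -, h2⟩
      exact ⟨h1, by exact_mod_cast h2⟩
    · rintro ⟨h1, h2⟩
      exact ⟨h1, le_refl 1, h1.one_lt.le, by exact_mod_cast h2⟩
  · intro x hx
    have hx0 : (0 : ℝ) < x := by exact_mod_cast hx
    rw [div_le_iff₀ hx0]
    refine (average x hx).trans (le_of_eq ?_)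
    rw [mul_assoc]
    congr 1
    nth_rewrite 3 [← Real.rpow_one (x : ℝ)]
    rw [← Real.rpow_add hx0]
    norm_num

end Pool.Agent.Results.MP_de5eaa_nt.ThreeFifthsOnAverage
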